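import Pool.Agent.H49.TF.Fin

/-!
The triple flip graph of 15-vertex combinatorial 8-manifolds: 70 pairwise non-isomorphic members
with more than three automorphisms lie in one connected component.
-/

set_option autoImplicit false

namespace Pool.Agent.Results.MP_38f604_gt.OneComponent

open Pool.Agent.H49.TF

/-- There are 70 pairwise non-isomorphic 15-vertex combinatorial 8-manifolds with Euler
characteristic 3 and more than three automorphisms, any two of which are joined by a finite
sequence of triple flips and renamings of the vertices. -/
theorem result : ∃ K : Fin 70 → Cx,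
    (∀ i, InM (K i) ∧ 3 < Nat.card {σ : Equiv.Perm (Fin 15) // relabel σ (K i) = K i}) ∧
    (∀ i j, i ≠ j → ∀ σ : Equiv.Perm (Fin 15), relabel σ (K i) ≠ K j) ∧
    ∀ i j, Relation.EqvGen Step (K i) (K j) :=
  final

end Pool.Agent.Results.MP_38f604_gt.OneComponent
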